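import Pool.Agent.U198.MD.Psd

/-!
# A quadratic form in seven variables which is not a mixed determinant
-/

set_option autoImplicit false

open Matrix ComplexConjugate

namespace Pool.Agent.U198.MD

/-- The symmetric matrix of coefficients. -/
def c : Fin 7 → Fin 7 → ℤ :=
  ![![0, 13, 7, 10, 13, 13, 10],
    ![13, 0, 13, 13, 7, 13, 10],
    ![7, 13, 0, 13, 13, 10, 13],
    ![10, 13, 13, 0, 10, 13, 13],
    ![13, 7, 13, 10, 0, 10, 13],
    ![13, 13, 10, 13, 10, 0, 7],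
    ![10, 10, 13, 13, 13, 7, 0]]

theorem c_diag (k : Fin 7) : c k k = 0 := by
  revert k; decide

theorem c_symm (k l : Fin 7) : c k l = c l k := by
  revert k l; decide

theorem c_pos (k l : Fin 7) (h : k ≠ l) : 0 < c k l := by
  revert k l; decide

theorem c_mod (k l : Fin 7) : ((c k l : ℤ) : ZMod 3) = if k = l then 0 else 1 := by
  revert k l; decide

/-- The `3 × 3` minor of `c` with the given rows and columns. -/
def d3 (s1 s2 s3 t1 t2 t3 : Fin 7) : ℤ :=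
  c s1 t1 * (c s2 t2 * c s3 t3 - c s2 t3 * c s3 t2) -
    c s1 t2 * (c s2 t1 * c s3 t3 - c s2 t3 * c s3 t1) +
    c s1 t3 * (c s2 t1 * c s3 t2 - c s2 t2 * c s3 t1)

set_option maxRecDepth 100000 in
theorem d3_ne : ∀ s1 s2 s3 : Fin 7, s1 < s2 → s2 < s3 → ∀ t1 : Fin 7, t1 ≠ s1 → t1 ≠ s2 → t1 ≠ s3 →
    ∀ t2 : Fin 7, t1 < t2 → t2 ≠ s1 → t2 ≠ s2 → t2 ≠ s3 →
    ∀ t3 : Fin 7, t2 < t3 → t3 ≠ s1 → t3 ≠ s2 → t3 ≠ s3 → d3 s1 s2 s3 t1 t2 t3 ≠ 0 := by
  decide

theorem no_cross (t : ℝ) (ht : t ≠ 0) (α γ : Fin 7 → ℝ) (s1 s2 s3 t1 t2 t3 : Fin 7)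
    (h : ∀ s ∈ ({s1, s2, s3} : Finset (Fin 7)), ∀ u ∈ ({t1, t2, t3} : Finset (Fin 7)),
      t * (c s u : ℝ) = α s * γ u + α u * γ s) : d3 s1 s2 s3 t1 t2 t3 = 0 := by
  have e : ∀ s ∈ ({s1, s2, s3} : Finset (Fin 7)), ∀ u ∈ ({t1, t2, t3} : Finset (Fin 7)),
      (c s u : ℝ) = (α s * γ u + α u * γ s) / t := by
    intro s hs u hu
    rw [← h s hs u hu]
    field_simp
  have m1 : s1 ∈ ({s1, s2, s3} : Finset (Fin 7)) := by simp
  have m2 : s2 ∈ ({s1, s2, s3} : Finset (Fin 7)) := by simp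
  have m3 : s3 ∈ ({s1, s2, s3} : Finset (Fin 7)) := by simp
  have n1 : t1 ∈ ({t1, t2, t3} : Finset (Fin 7)) := by simp
  have n2 : t2 ∈ ({t1, t2, t3} : Finset (Fin 7)) := by simp
  have n3 : t3 ∈ ({t1, t2, t3} : Finset (Fin 7)) := by simp
  have : ((d3 s1 s2 s3 t1 t2 t3 : ℤ) : ℝ) = 0 := by
    unfold d3
    push_cast
    rw [e s1 m1 t1 n1, e s1 m1 t2 n2, e s1 m1 t3 n3, e s2 m2 t1 n1, e s2 m2 t2 n2, e s2 m2 t3 n3,
      e s3 m3 t1 n1, e s3 m3 t2 n2, e s3 m3 t3 n3]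
    ring
  exact_mod_cast this

theorem no_five (t : ℝ) (ht : t ≠ 0) (α γ x y : Fin 7 → ℝ) (K : Fin 5 → Fin 7)
    (hK : Function.Injective K)
    (h : ∀ i j, t * (c (K i) (K j) : ℝ) = α (K i) * γ (K j) + α (K j) * γ (K i) -
      2 * (x (K i) * x (K j) + y (K i) * y (K j))) : False := by
  let N : Matrix (Fin 5) (Fin 5) ℤ := fun i j => c (K i) (K j)
  have hN3 : N.map (Int.castRingHom (ZMod 3)) = fun i j => if i = j then 0 else 1 := by
    ext i j
    change ((c (K i) (K j) : ℤ) : ZMod 3) = _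
    rw [c_mod]
    simp only [hK.eq_iff]
  have hdet : N.det ≠ 0 := by
    intro h0
    have h1 : (N.map (Int.castRingHom (ZMod 3))).det = 0 := by
      have := RingHom.map_det (Int.castRingHom (ZMod 3)) N
      rw [h0, map_zero] at this
      exact this.symm
    have h2 : (N.map (Int.castRingHom (ZMod 3))) * (N.map (Int.castRingHom (ZMod 3))) = 1 := by
      rw [hN3]
      decide
    have h3 := congrArg Matrix.det h2
    rw [Matrix.det_mul, h1, zero_mul, Matrix.det_one] at h3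
    exact absurd h3 (by decide)
  let U : Matrix (Fin 5) (Fin 4) ℝ := fun i => ![α (K i), γ (K i), x (K i), y (K i)]
  let V : Matrix (Fin 4) (Fin 5) ℝ := ![fun j => γ (K j), fun j => α (K j), fun j => -2 * x (K j),
    fun j => -2 * y (K j)]
  have hUV : U * V = t • N.map (Int.cast : ℤ → ℝ) := by
    ext i j
    rw [Matrix.mul_apply, Fin.sum_univ_four, Matrix.smul_apply, Matrix.map_apply, smul_eq_mul]
    change _ = t * (c (K i) (K j) : ℝ)
    rw [h]
    change α (K i) * γ (K j) + γ (K i) * α (K j) + x (K i) * (-2 * x (K j)) +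
      y (K i) * (-2 * y (K j)) = _
    ring
  have hr : (U * V).rank ≤ 4 := by
    refine (Matrix.rank_mul_le_left U V).trans ?_
    have := U.rank_le_width
    simpa using this
  have hu : IsUnit (U * V) := by
    rw [hUV, Matrix.isUnit_iff_isUnit_det, Matrix.det_smul, isUnit_iff_ne_zero]
    refine mul_ne_zero (pow_ne_zero _ ht) ?_
    have : (N.map (Int.cast : ℤ → ℝ)).det = ((N.det : ℤ) : ℝ) :=
      (RingHom.map_det (Int.castRingHom ℝ) N).symm
    rw [this]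
    exact_mod_cast hdet
  rw [Matrix.rank_of_isUnit _ hu] at hr
  simp at hr

end Pool.Agent.U198.MD
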