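import Mathlib

/-!
# Mixed determinants of matrices, the case of size two
-/

set_option autoImplicit false

open MvPolynomial Matrix

namespace Pool.Agent.U198.MD

/-- The mixed determinant `η(A_1, …, A_m)`: the sum over all `m`-tuples `(S_1, …, S_m)` of pairwise
disjoint subsets of `{1, …, n}` with union `{1, …, n}` of the products of the principal minors
`det (A_j[S_j])`. -/
noncomputable def eta {R : Type*} [CommRing R] {n m : ℕ} (A : Fin m → Matrix (Fin n) (Fin n) R) :
    R :=
  ∑ S ∈ Finset.univ.filter (fun S : Fin m → Finset (Fin n) =>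
      (∀ i j, i ≠ j → Disjoint (S i) (S j)) ∧ ∀ x, ∃ j, x ∈ S j),
    ∏ j, ((A j).submatrix (fun x : S j => (x : Fin n)) (fun x : S j => (x : Fin n))).det

theorem eta_map {R R' : Type*} [CommRing R] [CommRing R'] (φ : R →+* R') {n m : ℕ}
    (A : Fin m → Matrix (Fin n) (Fin n) R) : φ (eta A) = eta fun j => (A j).map φ := by
  unfold eta
  rw [map_sum]
  refine Finset.sum_congr rfl fun S _ => ?_
  rw [map_prod]
  refine Finset.prod_congr rfl fun j _ => ?_
  rw [RingHom.map_det]
  rfl

theorem minor_eq {R : Type*} [CommRing R] (A : Matrix (Fin 2) (Fin 2) R) (S : Finset (Fin 2)) :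
    (A.submatrix (fun x : S => (x : Fin 2)) (fun x : S => (x : Fin 2))).det =
      if (0 : Fin 2) ∈ S then (if (1 : Fin 2) ∈ S then A.det else A 0 0)
      else (if (1 : Fin 2) ∈ S then A 1 1 else 1) := by
  by_cases h0 : (0 : Fin 2) ∈ S
  · by_cases h1 : (1 : Fin 2) ∈ S
    · rw [if_pos h0, if_pos h1]
      let e : S ≃ Fin 2 :=
        { toFun := fun x => x.1
          invFun := fun x => ⟨x, by fin_cases x; exacts [h0, h1]⟩
          left_inv := fun x => rfl
          right_inv := fun x => rfl }
      exact Matrix.det_submatrix_equiv_self e A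
    · rw [if_pos h0, if_neg h1]
      have hS : S = {0} := by
        ext x
        fin_cases x
        · simpa using h0
        · simpa using h1
      subst hS
      rw [Matrix.det_unique]
      rfl
  · by_cases h1 : (1 : Fin 2) ∈ S
    · rw [if_neg h0, if_pos h1]
      have hS : S = {1} := by
        ext x
        fin_cases x
        · simpa using h0
        · simpa using h1
      subst hS
      rw [Matrix.det_unique]
      rfl
    · rw [if_neg h0, if_neg h1]
      have hS : S = ∅ := by
        ext x
        fin_cases x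
        · simpa using h0
        · simpa using h1
      subst hS
      rw [Matrix.det_isEmpty]

theorem eta_two {R : Type*} [CommRing R] {m : ℕ} (A : Fin m → Matrix (Fin 2) (Fin 2) R) :
    eta A = ∑ p : Fin m × Fin m, if p.1 = p.2 then (A p.1).det else A p.1 0 0 * A p.2 1 1 := by
  classical
  unfold eta
  symm
  let T : Fin m × Fin m → Fin m → Finset (Fin 2) := fun p j =>
    (if j = p.1 then {0} else ∅) ∪ (if j = p.2 then {1} else ∅)
  have T0 : ∀ p j, (0 : Fin 2) ∈ T p j ↔ j = p.1 := by
    intro p j
    change (0 : Fin 2) ∈ (if j = p.1 then {0} else ∅) ∪ (if j = p.2 then {1} else ∅) ↔ j = p.1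
    split_ifs with h h' h' <;> simp [h]
  have T1 : ∀ p j, (1 : Fin 2) ∈ T p j ↔ j = p.2 := by
    intro p j
    change (1 : Fin 2) ∈ (if j = p.1 then {0} else ∅) ∪ (if j = p.2 then {1} else ∅) ↔ j = p.2
    split_ifs with h h' h' <;> simp [h']
  refine Finset.sum_bij (fun p _ => T p) ?_ ?_ ?_ ?_
  · intro p _
    rw [Finset.mem_filter]
    refine ⟨Finset.mem_univ _, fun i j hij => ?_, fun x => ?_⟩
    · rw [Finset.disjoint_left]
      intro x hx hx'
      fin_cases x
      · exact hij (((T0 p i).1 hx).trans ((T0 p j).1 hx').symm)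
      · exact hij (((T1 p i).1 hx).trans ((T1 p j).1 hx').symm)
    · fin_cases x
      · exact ⟨p.1, (T0 p _).2 rfl⟩
      · exact ⟨p.2, (T1 p _).2 rfl⟩
  · intro p _ q _ h
    have h1 : p.1 = q.1 := (T0 q p.1).1 (by rw [← h]; exact (T0 p _).2 rfl)
    have h2 : p.2 = q.2 := (T1 q p.2).1 (by rw [← h]; exact (T1 p _).2 rfl)
    exact Prod.ext h1 h2
  · intro S hS
    rw [Finset.mem_filter] at hS
    obtain ⟨-, hd, hc⟩ := hS
    obtain ⟨i, hi⟩ := hc 0
    obtain ⟨j, hj⟩ := hc 1
    refine ⟨(i, j), Finset.mem_univ _, ?_⟩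
    funext k
    ext x
    fin_cases x
    · change (0 : Fin 2) ∈ T (i, j) k ↔ (0 : Fin 2) ∈ S k
      rw [T0]
      constructor
      · rintro rfl
        exact hi
      · intro hk
        by_contra hne
        exact Finset.disjoint_left.1 (hd k i hne) hk hi
    · change (1 : Fin 2) ∈ T (i, j) k ↔ (1 : Fin 2) ∈ S k
      rw [T1]
      constructor
      · rintro rfl
        exact hj
      · intro hk
        by_contra hne
        exact Finset.disjoint_left.1 (hd k j hne) hk hj
  · intro p _
    have key : ∀ j, ((A j).submatrix (fun x : T p j => (x : Fin 2))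
        (fun x : T p j => (x : Fin 2))).det =
        if j = p.1 then (if j = p.2 then (A j).det else A j 0 0)
        else (if j = p.2 then A j 1 1 else 1) := by
      intro j
      rw [minor_eq]
      simp only [T0, T1]
    rw [Finset.prod_congr rfl fun j _ => key j]
    by_cases h : p.1 = p.2
    · rw [if_pos h, Finset.prod_eq_single p.1]
      · rw [if_pos rfl, if_pos h]
      · intro j _ hj
        rw [if_neg hj, if_neg (fun e => hj (e.trans h.symm))]
      · intro hh
        exact absurd (Finset.mem_univ _) hh
    · rw [if_neg h, Finset.prod_eq_mul p.1 p.2 h]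
      · rw [if_pos rfl, if_neg h, if_neg (Ne.symm h), if_pos rfl]
      · intro j _ hj
        rw [if_neg hj.1, if_neg hj.2]
      · intro hh
        exact absurd (Finset.mem_univ _) hh
      · intro hh
        exact absurd (Finset.mem_univ _) hh

end Pool.Agent.U198.MD
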