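import Pool.Agent.U198.MD.Comb

/-!
# The quadratic form has no representation
-/

set_option autoImplicit false

open Matrix ComplexConjugate

namespace Pool.Agent.U198.MD

theorem no_split {lab : Fin 7 → Fin 7 → Prop} (t : ℝ) (ht : t ≠ 0) (α γ : Fin 7 → ℝ)
    (h : ∀ k l, ¬ lab k l → t * (c k l : ℝ) = α k * γ l + α l * γ k)
    (U : Finset (Fin 7)) (hU : ∀ k ∈ U, ∀ l, l ∉ U → ¬ lab k l) (h3 : 3 ≤ U.card)
    (h4 : U.card ≤ 4) : False := by
  classical
  obtain ⟨S, hSU, hS⟩ := Finset.exists_subset_card_eq h3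
  have hc : 3 ≤ Uᶜ.card := by
    rw [Finset.card_compl, Fintype.card_fin]
    omega
  obtain ⟨T, hTU, hT⟩ := Finset.exists_subset_card_eq hc
  let e := S.orderEmbOfFin hS
  let f := T.orderEmbOfFin hT
  have he : ∀ i, e i ∈ U := fun i => hSU (Finset.orderEmbOfFin_mem S hS i)
  have hf : ∀ i, f i ∉ U := fun i => Finset.mem_compl.1 (hTU (Finset.orderEmbOfFin_mem T hT i))
  have hne : ∀ i j, f i ≠ e j := fun i j hij => hf i (hij ▸ he j)
  have h01 : (0 : Fin 3) < 1 := by decide
  have h12 : (1 : Fin 3) < 2 := by decide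
  refine d3_ne (e 0) (e 1) (e 2) (e.lt_iff_lt.2 h01) (e.lt_iff_lt.2 h12) (f 0) (hne _ _) (hne _ _)
    (hne _ _) (f 1) (f.lt_iff_lt.2 h01) (hne _ _) (hne _ _) (hne _ _) (f 2) (f.lt_iff_lt.2 h12)
    (hne _ _) (hne _ _) (hne _ _) ?_
  refine no_cross t ht α γ _ _ _ _ _ _ fun s hs u hu => h s u ?_
  have hs' : s ∈ U := by
    simp only [Finset.mem_insert, Finset.mem_singleton] at hs
    rcases hs with rfl | rfl | rfl <;> exact he _
  have hu' : u ∉ U := by
    simp only [Finset.mem_insert, Finset.mem_singleton] at hu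
    rcases hu with rfl | rfl | rfl <;> exact hf _
  exact hU s hs' u hu'

theorem no_data {m : ℕ} (t : ℝ) (ht : t ≠ 0) (α γ : Fin 7 → ℝ) (b : Fin m → Fin 7 → ℂ)
    (hb : ∀ k i j, i ≠ j → b i k ≠ 0 → b j k = 0)
    (h : ∀ k l, t * (c k l : ℝ) = α k * γ l + α l * γ k - 2 * ∑ i, (b i k * conj (b i l)).re) :
    False := by
  classical
  -- the classes
  let r : Fin 7 → Fin 7 → Prop := fun k l => k = l ∨ ∃ i, b i k ≠ 0 ∧ b i l ≠ 0
  have r_refl : ∀ k, r k k := fun k => Or.inl rfl
  have r_symm : ∀ k l, r k l → r l k := by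
    rintro k l (h | ⟨i, h1, h2⟩)
    · exact Or.inl h.symm
    · exact Or.inr ⟨i, h2, h1⟩
  have r_trans : ∀ k l o, r k l → r l o → r k o := by
    rintro k l o (h | ⟨i, h1, h2⟩) (h' | ⟨j, h1', h2'⟩)
    · exact Or.inl (h.trans h')
    · exact Or.inr ⟨j, h ▸ h1', h2'⟩
    · exact Or.inr ⟨i, h1, h' ▸ h2⟩
    · have hij : i = j := by
        by_contra hij
        exact h1' (hb l i j hij h2)
      subst hij
      exact Or.inr ⟨i, h1, h2'⟩
  have hcross : ∀ k l, ¬ r k l → t * (c k l : ℝ) = α k * γ l + α l * γ k := by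
    intro k l hkl
    rw [h k l]
    have : ∑ i, (b i k * conj (b i l)).re = 0 := by
      refine Finset.sum_eq_zero fun i _ => ?_
      by_cases h1 : b i k = 0
      · rw [h1, zero_mul, Complex.zero_re]
      · by_cases h2 : b i l = 0
        · rw [h2, map_zero, mul_zero, Complex.zero_re]
        · exact absurd (Or.inr ⟨i, h1, h2⟩) hkl
    rw [this]
    ring
  let cl : Fin 7 → Finset (Fin 7) := fun k => Finset.univ.filter (fun l => r k l)
  have mem_cl : ∀ k l, l ∈ cl k ↔ r k l := fun k l => by simp [cl]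
  have self_cl : ∀ k, k ∈ cl k := fun k => (mem_cl k k).2 (r_refl k)
  have split : ∀ U : Finset (Fin 7), (∀ k ∈ U, ∀ l, l ∉ U → ¬ r k l) → 3 ≤ U.card → U.card ≤ 4 →
      False := fun U h1 h2 h3 => no_split t ht α γ hcross U h1 h2 h3
  have closed_cl : ∀ o, ∀ k ∈ cl o, ∀ l, l ∉ cl o → ¬ r k l := by
    intro o k hk l hl hkl
    exact hl ((mem_cl o l).2 (r_trans o k l ((mem_cl o k).1 hk) hkl))
  have closed_union : ∀ U V : Finset (Fin 7), (∀ k ∈ U, ∀ l, l ∉ U → ¬ r k l) →
      (∀ k ∈ V, ∀ l, l ∉ V → ¬ r k l) → ∀ k ∈ U ∪ V, ∀ l, l ∉ U ∪ V → ¬ r k l := by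
    intro U V hU hV k hk l hl
    rw [Finset.mem_union, not_or] at hl
    rcases Finset.mem_union.1 hk with h1 | h1
    · exact hU k h1 l hl.1
    · exact hV k h1 l hl.2
  -- no class has five elements
  have five : ∀ k, (cl k).card ≤ 4 := by
    intro k
    by_contra h5
    push Not at h5
    obtain ⟨K, hKk, hK⟩ := Finset.exists_subset_card_eq (Nat.succ_le_of_lt h5)
    let e := K.orderEmbOfFin hK
    have he : ∀ i, r k (e i) := fun i => (mem_cl k _).1 (hKk (Finset.orderEmbOfFin_mem K hK i))
    -- the common index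
    obtain ⟨j, hj⟩ : ∃ j, b j k ≠ 0 := by
      by_contra hno
      push Not at hno
      have : ∀ i, k = e i := by
        intro i
        rcases he i with h1 | ⟨j, h1, -⟩
        · exact h1
        · exact absurd (hno j) h1
      have h01 : (0 : Fin 5) = 1 := e.injective ((this 0).symm.trans (this 1))
      exact absurd h01 (by decide)
    have hj' : ∀ i, b j (e i) ≠ 0 := by
      intro i
      rcases he i with h1 | ⟨j', h1, h2⟩
      · rw [← h1]
        exact hj
      · have : j' = j := by
          by_contra hne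
          exact hj (hb k j' j hne h1)
        rw [← this]
        exact h2
    refine no_five t ht α γ (fun l => (b j l).re) (fun l => (b j l).im) e e.injective
      fun i i' => ?_
    rw [h]
    have hs : ∑ o, (b o (e i) * conj (b o (e i'))).re =
        (b j (e i)).re * (b j (e i')).re + (b j (e i)).im * (b j (e i')).im := by
      rw [Finset.sum_eq_single j]
      · rw [Complex.mul_re, Complex.conj_re, Complex.conj_im]
        ring
      · intro o _ ho
        rw [hb (e i) j o ho.symm (hj' i), zero_mul, Complex.zero_re]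
      · intro hno
        exact absurd (Finset.mem_univ _) hno
    rw [hs]
  -- all classes have at most two elements
  have two : ∀ k, (cl k).card ≤ 2 := by
    intro k
    by_contra h2
    push Not at h2
    exact split (cl k) (closed_cl k) h2 (five k)
  have one : ∀ k, 1 ≤ (cl k).card := fun k => Finset.card_pos.2 ⟨k, self_cl k⟩
  have ex : ∀ U : Finset (Fin 7), U.card ≤ 4 → ∃ x, x ∉ U := by
    intro U hU
    by_contra hno
    push Not at hno
    have : U = Finset.univ := Finset.eq_univ_of_forall hno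
    rw [this, Finset.card_univ, Fintype.card_fin] at hU
    omega
  have grow : ∀ U : Finset (Fin 7), ∀ x, x ∉ U → U.card + 1 ≤ (U ∪ cl x).card ∧
      (U ∪ cl x).card ≤ U.card + 2 := by
    intro U x hx
    refine ⟨?_, (Finset.card_union_le _ _).trans (Nat.add_le_add_left (two x) _)⟩
    have : insert x U ⊆ U ∪ cl x := by
      intro y hy
      rcases Finset.mem_insert.1 hy with rfl | h1
      · exact Finset.mem_union_right _ (self_cl y)
      · exact Finset.mem_union_left _ h1
    have h2 := Finset.card_le_card this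
    rwa [Finset.card_insert_of_notMem hx] at h2
  obtain ⟨x, hx⟩ := ex (cl 0) ((two 0).trans (by norm_num))
  have g1 := grow _ x hx
  have c1 := closed_union _ _ (closed_cl 0) (closed_cl x)
  have o0 := one 0
  have t0 := two 0
  by_cases h3 : 3 ≤ (cl 0 ∪ cl x).card
  · exact split _ c1 h3 (by omega)
  · push Not at h3
    obtain ⟨y, hy⟩ := ex (cl 0 ∪ cl x) (by omega)
    have g2 := grow _ y hy
    have c2 := closed_union _ _ c1 (closed_cl y)
    exact split _ c2 (by omega) (by omega)

end Pool.Agent.U198.MD
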