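import Pool.Agent.U198.MD.Eta

/-!
# Mixed determinants of positive pencils of size two
-/

set_option autoImplicit false

open Matrix ComplexConjugate
open scoped ComplexOrder

namespace Pool.Agent.U198.MD

theorem psd_two {A : Matrix (Fin 2) (Fin 2) ℂ} (h : A.PosSemidef) : ∃ (a c : ℝ) (b : ℂ),
    0 ≤ a ∧ 0 ≤ c ∧ Complex.normSq b ≤ a * c ∧ A 0 0 = a ∧ A 1 1 = c ∧ A 0 1 = b ∧
      A 1 0 = conj b := by
  have h0 : 0 ≤ A 0 0 := h.diag_nonneg
  have h1 : 0 ≤ A 1 1 := h.diag_nonneg
  have hd : 0 ≤ A.det := h.det_nonneg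
  have h01 : A 1 0 = conj (A 0 1) := by
    have := h.isHermitian.apply 1 0
    rw [← this]
    rfl
  rw [Complex.nonneg_iff] at h0 h1 hd
  obtain ⟨a, ha⟩ : ∃ a : ℝ, A 0 0 = a := ⟨(A 0 0).re, Complex.ext rfl h0.2.symm⟩
  obtain ⟨c, hc⟩ : ∃ c : ℝ, A 1 1 = c := ⟨(A 1 1).re, Complex.ext rfl h1.2.symm⟩
  refine ⟨a, c, A 0 1, ?_, ?_, ?_, ha, hc, rfl, h01⟩
  · have := h0.1
    rwa [ha, Complex.ofReal_re] at this
  · have := h1.1
    rwa [hc, Complex.ofReal_re] at this
  · have h2 := hd.1
    rw [Matrix.det_fin_two, h01, Complex.mul_conj, ha, hc, ← Complex.ofReal_mul,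
      ← Complex.ofReal_sub, Complex.ofReal_re] at h2
    linarith

theorem eta_pencil {R : Type*} [CommRing R] {m : ℕ} (B : Fin m → Matrix (Fin 2) (Fin 2) R) :
    eta B = (∑ i, B i 0 0) * (∑ j, B j 1 1) - ∑ i, B i 0 1 * B i 1 0 := by
  classical
  rw [eta_two, Fintype.sum_prod_type, Finset.sum_mul_sum, ← Finset.sum_sub_distrib]
  refine Finset.sum_congr rfl fun i _ => ?_
  have : ∀ j, (if (i, j).1 = (i, j).2 then (B (i, j).1).det else B (i, j).1 0 0 * B (i, j).2 1 1) =
      B i 0 0 * B j 1 1 - if i = j then B i 0 1 * B i 1 0 else 0 := by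
    intro j
    change (if i = j then (B i).det else B i 0 0 * B j 1 1) = _
    by_cases h : i = j
    · subst h
      rw [if_pos rfl, if_pos rfl, Matrix.det_fin_two]
    · rw [if_neg h, if_neg h, sub_zero]
  rw [Finset.sum_congr rfl fun j _ => this j, Finset.sum_sub_distrib, Finset.sum_ite_eq,
    if_pos (Finset.mem_univ _)]

/-- The data of a representation of a quadratic form with vanishing diagonal. -/
theorem data {m ℓ : ℕ} (A : Fin m → Fin ℓ → Matrix (Fin 2) (Fin 2) ℂ)
    (hA : ∀ j k, (A j k).PosSemidef) (M : Fin ℓ → Fin ℓ → ℝ) (hM0 : ∀ k, M k k = 0)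
    (hMs : ∀ k l, M k l = M l k)
    (h : ∀ z : Fin ℓ → ℝ, (((∑ k, ∑ l, M k l * z k * z l) / 2 : ℝ) : ℂ) =
      eta fun j => ∑ k, (z k : ℂ) • A j k) :
    ∃ (α γ : Fin ℓ → ℝ) (b : Fin m → Fin ℓ → ℂ),
      (∀ k i j, i ≠ j → b i k ≠ 0 → b j k = 0) ∧
      ∀ k l, M k l = α k * γ l + α l * γ k - 2 * ∑ i, (b i k * conj (b i l)).re := by
  classical
  choose a c b ha hc hb e00 e11 e01 e10 using fun j k => psd_two (hA j k)
  have hQ : ∀ z : Fin ℓ → ℝ, (∑ k, ∑ l, M k l * z k * z l) / 2 =
      (∑ k, z k * ∑ i, a i k) * (∑ k, z k * ∑ i, c i k) -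
        ∑ i, Complex.normSq (∑ k, (z k : ℂ) * b i k) := by
    intro z
    have h1 := h z
    rw [eta_pencil] at h1
    have s00 : ∀ i, (∑ k, (z k : ℂ) • A i k) 0 0 = ((∑ k, z k * a i k : ℝ) : ℂ) := by
      intro i
      rw [Matrix.sum_apply]
      push_cast
      refine Finset.sum_congr rfl fun k _ => ?_
      rw [Matrix.smul_apply, e00, smul_eq_mul]
    have s11 : ∀ i, (∑ k, (z k : ℂ) • A i k) 1 1 = ((∑ k, z k * c i k : ℝ) : ℂ) := by
      intro i
      rw [Matrix.sum_apply]
      push_cast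
      refine Finset.sum_congr rfl fun k _ => ?_
      rw [Matrix.smul_apply, e11, smul_eq_mul]
    have s01 : ∀ i, (∑ k, (z k : ℂ) • A i k) 0 1 = ∑ k, (z k : ℂ) * b i k := by
      intro i
      rw [Matrix.sum_apply]
      refine Finset.sum_congr rfl fun k _ => ?_
      rw [Matrix.smul_apply, e01, smul_eq_mul]
    have s10 : ∀ i, (∑ k, (z k : ℂ) • A i k) 1 0 = conj (∑ k, (z k : ℂ) * b i k) := by
      intro i
      rw [Matrix.sum_apply, map_sum]
      refine Finset.sum_congr rfl fun k _ => ?_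
      rw [Matrix.smul_apply, e10, smul_eq_mul, map_mul, Complex.conj_ofReal]
    have t : ∀ i, (∑ k, (z k : ℂ) • A i k) 0 1 * (∑ k, (z k : ℂ) • A i k) 1 0 =
        ((Complex.normSq (∑ k, (z k : ℂ) * b i k) : ℝ) : ℂ) := by
      intro i
      rw [s01, s10, Complex.mul_conj]
    rw [Finset.sum_congr rfl fun i _ => s00 i, Finset.sum_congr rfl fun i _ => s11 i,
      Finset.sum_congr rfl fun i _ => t i, ← Complex.ofReal_sum, ← Complex.ofReal_sum,
      ← Complex.ofReal_sum, ← Complex.ofReal_mul, ← Complex.ofReal_sub] at h1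
    have h2 := Complex.ofReal_injective h1
    rw [h2]
    congr 2
    · rw [Finset.sum_comm]
      exact Finset.sum_congr rfl fun k _ => (Finset.mul_sum _ _ _).symm
    · rw [Finset.sum_comm]
      exact Finset.sum_congr rfl fun k _ => (Finset.mul_sum _ _ _).symm
  have hdiag : ∀ k, (∑ i, a i k) * (∑ i, c i k) = ∑ i, Complex.normSq (b i k) := by
    intro k
    have h1 := hQ (Pi.single k 1)
    simp only [Pi.single_apply, mul_ite, mul_one, mul_zero, ite_mul, one_mul, zero_mul,
      Finset.sum_ite_eq', Finset.sum_ite_eq, Finset.mem_univ, if_true, Complex.ofReal_one,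
      Complex.ofReal_zero, apply_ite (fun x : ℝ => (x : ℂ)), hM0, zero_div] at h1
    linarith
  refine ⟨fun k => ∑ i, a i k, fun k => ∑ i, c i k, b, ?_, ?_⟩
  · -- uniqueness of the index
    intro k i j hij hbi
    by_contra hbj
    have h1 := hdiag k
    rw [Finset.sum_mul_sum] at h1
    have h2 : ∑ i', ∑ j', a i' k * c j' k ≤ ∑ i', a i' k * c i' k := by
      rw [h1]
      exact Finset.sum_le_sum fun i' _ => hb i' k
    have h3 : ∀ i', a i' k * c i' k ≤ ∑ j', a i' k * c j' k := fun i' =>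
      Finset.single_le_sum (f := fun j' => a i' k * c j' k)
        (fun j' _ => mul_nonneg (ha _ _) (hc _ _)) (Finset.mem_univ i')
    have h4 : ∑ j', a i k * c j' k = a i k * c i k := by
      have h5 := Finset.sum_le_sum fun i' (_ : i' ∈ Finset.univ) => h3 i'
      have h6 : ∑ i', a i' k * c i' k = ∑ i', ∑ j', a i' k * c j' k := le_antisymm h5 h2
      exact ((Finset.sum_eq_sum_iff_of_le fun i' _ => h3 i').1 h6 i (Finset.mem_univ _)).symm
    have h5 : a i k * c j k ≤ 0 := by
      rw [← Finset.add_sum_erase _ _ (Finset.mem_univ i)] at h4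
      have h6 : ∑ j' ∈ Finset.univ.erase i, a i k * c j' k = 0 := by linarith
      have h7 := Finset.single_le_sum (f := fun j' => a i k * c j' k) (s := Finset.univ.erase i)
        (fun j' _ => mul_nonneg (ha _ _) (hc _ _))
        (Finset.mem_erase.2 ⟨hij.symm, Finset.mem_univ j⟩)
      change a i k * c j k ≤ _ at h7
      linarith
    have hbi' : 0 < a i k * c i k := lt_of_lt_of_le (Complex.normSq_pos.2 hbi) (hb i k)
    have hbj' : 0 < a j k * c j k := lt_of_lt_of_le (Complex.normSq_pos.2 hbj) (hb j k)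
    have hai : 0 < a i k := by
      rcases (ha i k).lt_or_eq with h | h
      · exact h
      · rw [← h, zero_mul] at hbi'
        exact absurd hbi' (lt_irrefl _)
    have hcj : 0 < c j k := by
      rcases (hc j k).lt_or_eq with h | h
      · exact h
      · rw [← h, mul_zero] at hbj'
        exact absurd hbj' (lt_irrefl _)
    exact absurd (mul_pos hai hcj) (not_lt.2 h5)
  · intro k l
    by_cases hkl : k = l
    · subst hkl
      have h1 := hdiag k
      have h2 : ∀ i, (b i k * conj (b i k)).re = Complex.normSq (b i k) := by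
        intro i
        rw [Complex.mul_conj, Complex.ofReal_re]
      rw [Finset.sum_congr rfl fun i _ => h2 i, hM0]
      change 0 = (∑ i, a i k) * (∑ i, c i k) + (∑ i, a i k) * (∑ i, c i k) - _
      linarith
    · have h1 := hQ (Pi.single k 1 + Pi.single l 1)
      have hk := hdiag k
      have hl := hdiag l
      have g1 : ∀ (f : Fin ℓ → ℝ), ∑ k', ((Pi.single k 1 + Pi.single l 1 : Fin ℓ → ℝ) k') * f k' =
          f k + f l := by
        intro f
        simp only [Pi.add_apply, Pi.single_apply, add_mul, ite_mul, one_mul, zero_mul,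
          Finset.sum_add_distrib, Finset.sum_ite_eq', Finset.mem_univ, if_true]
      have g2 : ∀ (f : Fin ℓ → ℂ),
          ∑ k', (((Pi.single k 1 + Pi.single l 1 : Fin ℓ → ℝ) k' : ℝ) : ℂ) * f k' =
          f k + f l := by
        intro f
        simp only [Pi.add_apply, Pi.single_apply, Complex.ofReal_add,
          apply_ite (fun x : ℝ => (x : ℂ)), Complex.ofReal_one, Complex.ofReal_zero, add_mul,
          ite_mul, one_mul, zero_mul,
          Finset.sum_add_distrib, Finset.sum_ite_eq', Finset.mem_univ, if_true]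
      have g3 : ∑ k', ∑ l', M k' l' * (Pi.single k 1 + Pi.single l 1 : Fin ℓ → ℝ) k' *
          (Pi.single k 1 + Pi.single l 1 : Fin ℓ → ℝ) l' = 2 * M k l := by
        have g4 : ∀ k', ∑ l', M k' l' * (Pi.single k 1 + Pi.single l 1 : Fin ℓ → ℝ) k' *
            (Pi.single k 1 + Pi.single l 1 : Fin ℓ → ℝ) l' =
            (Pi.single k 1 + Pi.single l 1 : Fin ℓ → ℝ) k' * (M k' k + M k' l) := by
          intro k'
          rw [← g1 (fun l' => M k' l'), Finset.mul_sum]
          exact Finset.sum_congr rfl fun l' _ => by ring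
        rw [Finset.sum_congr rfl fun k' _ => g4 k', g1, hM0, hM0, hMs l k]
        ring
      have g5 : ∑ i, Complex.normSq (∑ k',
          (((Pi.single k 1 + Pi.single l 1 : Fin ℓ → ℝ) k' : ℝ) : ℂ) * b i k') =
          ∑ i, Complex.normSq (b i k) + ∑ i, Complex.normSq (b i l) +
            2 * ∑ i, (b i k * conj (b i l)).re := by
        rw [Finset.mul_sum, ← Finset.sum_add_distrib, ← Finset.sum_add_distrib]
        refine Finset.sum_congr rfl fun i _ => ?_
        rw [g2 (b i)]
        exact Complex.normSq_add _ _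
      rw [g3, g1, g1, g5] at h1
      change M k l = (∑ i, a i k) * (∑ i, c i l) + (∑ i, a i l) * (∑ i, c i k) - _
      linarith

end Pool.Agent.U198.MD
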